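import Pool.Agent.Helper1.MT.Defs

/-!
# Project MT (helper1): common lemmas for the modules L and P
-/

set_option autoImplicit false

open Finset

namespace Pool.Agent.Helper90.MT

open Pool.Agent.Helper1.MT

variable {ι κ : Type} [Fintype ι] [Fintype κ] [DecidableEq ι] [DecidableEq κ]

theorem ws_nonneg {w : ι → ℝ} (hw : ∀ p, 0 ≤ w p) (S : Finset ι) : 0 ≤ ws w S :=
  Finset.prod_nonneg fun p _ => hw p

/-- The sum over the supersets of `U`. -/
theorem superSum {w : ι → ℝ} (hw : ∀ p, 0 ≤ w p) {G : Finset ι → ℝ} (hG : ∀ S, 0 ≤ G S)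
    (hanti : ∀ S S', S ⊆ S' → G S' ≤ G S) (U : Finset ι) :
    ∑ S ∈ univ.filter (fun S : Finset ι => U ⊆ S), G S * ws w S ≤
      ws w U * ∑ S : Finset ι, G S * ws w S := by
  have h1 : ∀ S ∈ univ.filter (fun S : Finset ι => U ⊆ S), G S * ws w S ≤
      ws w U * (G (S \ U) * ws w (S \ U)) := by
    intro S hS
    have hU : U ⊆ S := (Finset.mem_filter.1 hS).2
    have h2 : ws w S = ws w U * ws w (S \ U) := by
      unfold ws
      rw [mul_comm, Finset.prod_sdiff hU]
    rw [h2]
    have h3 := hanti (S \ U) S Finset.sdiff_subset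
    calc G S * (ws w U * ws w (S \ U)) ≤ G (S \ U) * (ws w U * ws w (S \ U)) :=
          mul_le_mul_of_nonneg_right h3 (mul_nonneg (ws_nonneg hw _) (ws_nonneg hw _))
      _ = _ := by ring
  refine (Finset.sum_le_sum h1).trans ?_
  rw [← Finset.mul_sum]
  refine mul_le_mul_of_nonneg_left ?_ (ws_nonneg hw _)
  have hinj : Set.InjOn (fun S : Finset ι => S \ U)
      (univ.filter (fun S : Finset ι => U ⊆ S) : Finset (Finset ι)) := by
    intro S hS S' hS' h
    have h4 : U ⊆ S := by simpa using hS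
    have h5 : U ⊆ S' := by simpa using hS'
    have h6 : S \ U = S' \ U := h
    rw [← Finset.sdiff_union_of_subset h4, h6, Finset.sdiff_union_of_subset h5]
  rw [← Finset.sum_image (f := fun S => G S * ws w S) hinj]
  exact Finset.sum_le_sum_of_subset_of_nonneg (Finset.subset_univ _)
    fun S _ _ => mul_nonneg (hG S) (ws_nonneg hw S)

/-- The sum over the sets which contain `p`. -/
theorem memSum {w : ι → ℝ} (hw : ∀ p, 0 ≤ w p) {G : Finset ι → ℝ} (hG : ∀ S, 0 ≤ G S)
    (hanti : ∀ S S', S ⊆ S' → G S' ≤ G S) (p : ι) :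
    ∑ S : Finset ι, (if p ∈ S then G S * ws w S else 0) ≤
      w p * ∑ S : Finset ι, G S * ws w S := by
  have h := superSum hw hG hanti {p}
  rw [← Finset.sum_filter]
  have h1 : ws w {p} = w p := by simp [ws]
  rw [h1] at h
  refine le_trans (le_of_eq ?_) h
  refine Finset.sum_congr ?_ fun _ _ => rfl
  ext S
  simp

/-- `∑_S G(S) w(S) ∑_{p ∈ S} w(p) ≤ (∑ w²) ∑_S G(S) w(S)`. -/
theorem sumSum {w : ι → ℝ} (hw : ∀ p, 0 ≤ w p) {G : Finset ι → ℝ} (hG : ∀ S, 0 ≤ G S)
    (hanti : ∀ S S', S ⊆ S' → G S' ≤ G S) :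
    ∑ S : Finset ι, G S * ws w S * ∑ p ∈ S, w p ≤
      (∑ p, w p ^ 2) * ∑ S : Finset ι, G S * ws w S := by
  have h1 : ∀ S : Finset ι, G S * ws w S * ∑ p ∈ S, w p =
      ∑ p, w p * (if p ∈ S then G S * ws w S else 0) := by
    intro S
    rw [Finset.mul_sum, ← Finset.sum_filter_add_sum_filter_not univ (fun p => p ∈ S)]
    rw [Finset.sum_eq_zero (s := univ.filter fun p => p ∉ S), add_zero]
    · have h2 : univ.filter (fun p => p ∈ S) = S := by ext p; simp
      rw [h2]
      refine Finset.sum_congr rfl fun p hp => ?_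
      rw [if_pos hp]
      ring
    · intro p hp
      rw [if_neg (Finset.mem_filter.1 hp).2, mul_zero]
  simp only [h1]
  rw [Finset.sum_comm, Finset.sum_mul]
  refine Finset.sum_le_sum fun p _ => ?_
  rw [← Finset.mul_sum]
  calc w p * ∑ S : Finset ι, (if p ∈ S then G S * ws w S else 0)
      ≤ w p * (w p * ∑ S : Finset ι, G S * ws w S) :=
        mul_le_mul_of_nonneg_left (memSum hw hG hanti p) (hw p)
    _ = _ := by ring

theorem mem_cls {c : ι → Option κ} {i : κ} {p : ι} : p ∈ cls c i ↔ c p = some i := by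
  simp [cls]

theorem mem_supp {c : ι → Option κ} {p : ι} : p ∈ supp c ↔ c p ≠ none := by
  simp [supp]

/-- Products over the support. -/
theorem prod_supp (w : ι → ℝ) (c : ι → Option κ) :
    ∏ p ∈ supp c, w p = ∏ i, ∏ p ∈ cls c i, w p := by
  have h1 : ∀ i, ∏ p ∈ cls c i, w p = ∏ p, (if c p = some i then w p else 1) := by
    intro i
    rw [cls, Finset.prod_filter]
  simp only [h1]
  rw [Finset.prod_comm, supp, Finset.prod_filter]
  refine Finset.prod_congr rfl fun p _ => ?_
  rcases hc : c p with _ | a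
  · simp
  · simp

theorem ws_supp (w : ι → ℝ) (c : ι → Option κ) : ws w (supp c) = ∏ i, ws w (cls c i) :=
  prod_supp w c

theorem sum_supp (w : ι → ℝ) (c : ι → Option κ) :
    ∑ p ∈ supp c, w p = ∑ i, ∑ p ∈ cls c i, w p := by
  have h1 : ∀ i, ∑ p ∈ cls c i, w p = ∑ p, (if c p = some i then w p else 0) := by
    intro i
    rw [cls, Finset.sum_filter]
  simp only [h1]
  rw [Finset.sum_comm, supp, Finset.sum_filter]
  refine Finset.sum_congr rfl fun p _ => ?_
  rcases hc : c p with _ | a
  · simp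
  · simp

theorem T_supp (t : ι → ℝ) (c : ι → Option κ) : T t (supp c) = ∑ i, T t (cls c i) :=
  sum_supp t c

/-- The sign of a local value. -/
def sg (a : Option κ) : ℝ := if a = none then 1 else -1

theorem sg_prod (c : ι → Option κ) : ((-1 : ℝ)) ^ (supp c).card = ∏ p, sg (c p) := by
  rw [← Finset.prod_const, supp, Finset.prod_filter]
  refine Finset.prod_congr rfl fun p _ => ?_
  unfold sg
  by_cases h : c p = none
  · simp [h]
  · simp [h]

/-- Products of sums over finite sets. -/
theorem prod_tuple (G : κ → Finset ι → ℝ) :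
    ∏ i, ∑ S : Finset ι, G i S = ∑ f : κ → Finset ι, ∏ i, G i (f i) := by
  rw [Finset.prod_univ_sum, Fintype.piFinset_univ]

theorem prod_local (F : ι → Option κ → ℝ) :
    ∏ p, ∑ a : Option κ, F p a = ∑ c : ι → Option κ, ∏ p, F p (c p) := by
  rw [Finset.prod_univ_sum, Fintype.piFinset_univ]

theorem cls_inj : Function.Injective fun c : ι → Option κ => fun i : κ => cls c i := by
  intro c c' h
  funext p
  have h1 : ∀ i, c p = some i ↔ c' p = some i := by
    intro i
    rw [← mem_cls, ← mem_cls]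
    have := congrFun h i
    simp only at this
    rw [this]
  rcases hc : c p with _ | a
  · rcases hc' : c' p with _ | a'
    · rfl
    · have := (h1 a').2 hc'
      rw [hc] at this
      exact this
  · exact ((h1 a).1 hc).symm

/-- Sums over colourings are at most sums over tuples. -/
theorem tuple_le {F : (κ → Finset ι) → ℝ} (hF : ∀ f, 0 ≤ F f) :
    ∑ c : ι → Option κ, F (fun i => cls c i) ≤ ∑ f : κ → Finset ι, F f := by
  have hinj : Set.InjOn (fun c : ι → Option κ => fun i : κ => cls c i)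
      ((univ : Finset (ι → Option κ)) : Set (ι → Option κ)) := cls_inj.injOn
  rw [← Finset.sum_image (f := F) hinj]
  exact Finset.sum_le_sum_of_subset_of_nonneg (Finset.subset_univ _) fun f _ _ => hF f

/-- The coloring of a tuple of disjoint sets. -/
noncomputable def ofT (f : κ → Finset ι) (p : ι) : Option κ :=
  if h : ∃ i, p ∈ f i then some h.choose else none

theorem cls_ofT {f : κ → Finset ι} (hf : ∀ i j, i ≠ j → Disjoint (f i) (f j)) (i : κ) :
    cls (ofT f) i = f i := by
  ext p
  rw [mem_cls]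
  unfold ofT
  constructor
  · intro h
    split_ifs at h with h1
    · have h2 := h1.choose_spec
      rw [Option.some.inj h] at h2
      exact h2
  · intro h
    have h1 : ∃ i, p ∈ f i := ⟨i, h⟩
    rw [dif_pos h1]
    congr 1
    by_contra hne
    exact (Finset.disjoint_left.1 (hf _ _ hne) h1.choose_spec) h

/-- Sums over tuples of disjoint sets are at most sums over colourings. -/
theorem le_tuple {F : (κ → Finset ι) → ℝ} (hF : ∀ f, 0 ≤ F f)
    [DecidablePred fun f : κ → Finset ι => ∀ i j, i ≠ j → Disjoint (f i) (f j)] :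
    ∑ f ∈ univ.filter (fun f : κ → Finset ι => ∀ i j, i ≠ j → Disjoint (f i) (f j)), F f ≤
      ∑ c : ι → Option κ, F (fun i => cls c i) := by
  have h1 : ∀ f ∈ univ.filter (fun f : κ → Finset ι => ∀ i j, i ≠ j → Disjoint (f i) (f j)),
      F f = F (fun i => cls (ofT f) i) := by
    intro f hf
    congr 1
    funext i
    exact (cls_ofT (Finset.mem_filter.1 hf).2 i).symm
  rw [Finset.sum_congr rfl h1]
  have hinj : Set.InjOn (fun f : κ → Finset ι => (ofT f : ι → Option κ))
      (univ.filter (fun f : κ → Finset ι => ∀ i j, i ≠ j → Disjoint (f i) (f j)) :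
        Finset (κ → Finset ι)) := by
    intro f hf f' hf' h
    have h2 : ∀ i j, i ≠ j → Disjoint (f i) (f j) := by simpa using hf
    have h3 : ∀ i j, i ≠ j → Disjoint (f' i) (f' j) := by simpa using hf'
    have h4 : (ofT f : ι → Option κ) = ofT f' := h
    funext i
    rw [← cls_ofT h2 i, h4, cls_ofT h3 i]
  rw [← Finset.sum_image (g := fun f : κ → Finset ι => (ofT f : ι → Option κ))
    (f := fun c : ι → Option κ => F (fun i => cls c i)) hinj]
  exact Finset.sum_le_sum_of_subset_of_nonneg (Finset.subset_univ _) fun c _ _ => hF _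

/-- Products `∏ (1 + x_p)`. -/
theorem prod_one_add_le (x : ι → ℝ) (hx : ∀ p, 0 ≤ x p) :
    ∏ p, (1 + x p) ≤ Real.exp (∑ p, x p) := by
  rw [Real.exp_sum]
  refine Finset.prod_le_prod (fun p _ => by linarith [hx p]) fun p _ => ?_
  have := Real.add_one_le_exp (x p)
  linarith

theorem exp_le_two {x : ℝ} (h0 : 0 ≤ x) (h1 : x ≤ 1 / 2) : Real.exp x ≤ 1 + 2 * x := by
  have h := Real.exp_bound_div_one_sub_of_interval h0 (by linarith : x < 1)
  refine h.trans ?_
  rw [div_le_iff₀ (by linarith)]
  nlinarith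

/-- `∏ (1 - x_p) ≥ 1 - ∑ x_p`. -/
theorem one_sub_le_prod (x : ι → ℝ) (S : Finset ι) (h0 : ∀ p, 0 ≤ x p) (h1 : ∀ p, x p ≤ 1) :
    1 - ∑ p ∈ S, x p ≤ ∏ p ∈ S, (1 - x p) := by
  induction S using Finset.induction_on with
  | empty => simp
  | insert p S hp ih =>
    rw [Finset.sum_insert hp, Finset.prod_insert hp]
    have h2 : ∏ q ∈ S, (1 - x q) ≤ 1 :=
      Finset.prod_le_one (fun q _ => by linarith [h1 q]) fun q _ => by linarith [h0 q]
    have h3 := h0 p
    nlinarith

end Pool.Agent.Helper90.MT
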